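import Pool.Agent.Helper20.MB.DefsG

/-!
# MB-8b : the Lie derivatives along the spray are invariant under a change of gauge
-/

open Filter Metric Module Set
open scoped Topology ContDiff RealInnerProductSpace Manifold

set_option maxSynthPendingDepth 3
set_option linter.unusedSectionVars false

namespace Pool.Agent.Helper6.MB
open Pool.Agent.Helper20.PC Pool.Agent.Helper20.HP Pool.Agent.Helper20.M8 Pool.Agent.Helper20.MB

section
variable {V Y : Type*} [NormedAddCommGroup V] [NormedSpace ℝ V] [FiniteDimensional ℝ V]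
  [NormedAddCommGroup Y] [NormedSpace ℝ Y] [FiniteDimensional ℝ Y] {D : BD V Y} {x : V} {y : Y}

/-- derivative of one fibre component. -/
lemma hasFDerivAt_comp1 {A : V → V →L[ℝ] Y →L[ℝ] Y} (hg : ContDiff ℝ ∞ (gau A x)) (s : St V Y)
    (P : St V Y →L[ℝ] Y) :
    HasFDerivAt (fun s : St V Y => gau A x s.1 (P s))
      ((gau A x s.1) ∘L P + ((fderiv ℝ (gau A x) s.1) ∘L (ContinuousLinearMap.fst ℝ V _)).flip (P s)) s := by
  have h1 : HasFDerivAt (gau A x) (fderiv ℝ (gau A x) s.1) s.1 :=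
    (hg.differentiable (by simp)).differentiableAt.hasFDerivAt
  have h2 : HasFDerivAt (fun s : St V Y => gau A x s.1)
      ((fderiv ℝ (gau A x) s.1) ∘L (ContinuousLinearMap.fst ℝ V _)) s :=
    h1.comp s (hasFDerivAt_fst)
  exact h2.clm_apply P.hasFDerivAt

lemma gst_contDiff {A : V → V →L[ℝ] Y →L[ℝ] Y} (hg : ContDiff ℝ ∞ (gau A x)) :
    ContDiff ℝ ∞ (gst A x) := by
  unfold gst
  have h1 : ContDiff ℝ ∞ (fun s : St V Y => gau A x s.1) := hg.comp contDiff_fst
  fun_prop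

/-- projections of the state space to the fibre. -/
noncomputable def P1 (V Y : Type*) [NormedAddCommGroup V] [NormedSpace ℝ V] [NormedAddCommGroup Y]
    [NormedSpace ℝ Y] : St V Y →L[ℝ] V × Y × Y × Y × Y :=
  (ContinuousLinearMap.snd ℝ V _) ∘L (ContinuousLinearMap.snd ℝ V _)

noncomputable def Q1 (V Y : Type*) [NormedAddCommGroup V] [NormedSpace ℝ V] [NormedAddCommGroup Y]
    [NormedSpace ℝ Y] : St V Y →L[ℝ] Y :=
  (ContinuousLinearMap.fst ℝ Y _) ∘L (ContinuousLinearMap.snd ℝ V _) ∘L P1 V Y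

noncomputable def Q2 (V Y : Type*) [NormedAddCommGroup V] [NormedSpace ℝ V] [NormedAddCommGroup Y]
    [NormedSpace ℝ Y] : St V Y →L[ℝ] Y :=
  (ContinuousLinearMap.fst ℝ Y _) ∘L (ContinuousLinearMap.snd ℝ Y _) ∘L
    (ContinuousLinearMap.snd ℝ V _) ∘L P1 V Y

noncomputable def Q3 (V Y : Type*) [NormedAddCommGroup V] [NormedSpace ℝ V] [NormedAddCommGroup Y]
    [NormedSpace ℝ Y] : St V Y →L[ℝ] Y :=
  (ContinuousLinearMap.fst ℝ Y _) ∘L (ContinuousLinearMap.snd ℝ Y _) ∘L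
    (ContinuousLinearMap.snd ℝ Y _) ∘L (ContinuousLinearMap.snd ℝ V _) ∘L P1 V Y

noncomputable def Q4 (V Y : Type*) [NormedAddCommGroup V] [NormedSpace ℝ V] [NormedAddCommGroup Y]
    [NormedSpace ℝ Y] : St V Y →L[ℝ] Y :=
  (ContinuousLinearMap.snd ℝ Y _) ∘L (ContinuousLinearMap.snd ℝ Y _) ∘L
    (ContinuousLinearMap.snd ℝ Y _) ∘L (ContinuousLinearMap.snd ℝ V _) ∘L P1 V Y

lemma gst_fderiv {A : V → V →L[ℝ] Y →L[ℝ] Y} (hg : ContDiff ℝ ∞ (gau A x)) (s v : St V Y) :
    fderiv ℝ (gst A x) s v = (v.1, v.2.1, v.2.2.1,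
      gau A x s.1 v.2.2.2.1 + fderiv ℝ (gau A x) s.1 v.1 s.2.2.2.1,
      gau A x s.1 v.2.2.2.2.1 + fderiv ℝ (gau A x) s.1 v.1 s.2.2.2.2.1,
      gau A x s.1 v.2.2.2.2.2.1 + fderiv ℝ (gau A x) s.1 v.1 s.2.2.2.2.2.1,
      gau A x s.1 v.2.2.2.2.2.2 + fderiv ℝ (gau A x) s.1 v.1 s.2.2.2.2.2.2) := by
  have e1 := hasFDerivAt_comp1 hg s (Q1 V Y)
  have e2 := hasFDerivAt_comp1 hg s (Q2 V Y)
  have e3 := hasFDerivAt_comp1 hg s (Q3 V Y)
  have e4 := hasFDerivAt_comp1 hg s (Q4 V Y)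
  have f1 : HasFDerivAt (fun s : St V Y => s.1) (ContinuousLinearMap.fst ℝ V _) s := hasFDerivAt_fst
  have f2 : HasFDerivAt (fun s : St V Y => s.2.1)
    ((ContinuousLinearMap.fst ℝ V _) ∘L (ContinuousLinearMap.snd ℝ V _)) s :=
    ((ContinuousLinearMap.fst ℝ V _) ∘L (ContinuousLinearMap.snd ℝ V _) : St V Y →L[ℝ] V).hasFDerivAt
  have f3 : HasFDerivAt (fun s : St V Y => s.2.2.1)
    ((ContinuousLinearMap.fst ℝ V _) ∘L P1 V Y) s :=
    ((ContinuousLinearMap.fst ℝ V _) ∘L P1 V Y).hasFDerivAt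
  have e := f1.prodMk (f2.prodMk (f3.prodMk (e1.prodMk (e2.prodMk (e3.prodMk e4)))))
  have e' : HasFDerivAt (gst A x) _ s := e
  rw [e'.fderiv]
  simp [Q1, Q2, Q3, Q4, P1]

/-- the gauge transformation relates the two sprays. -/
lemma spray_rel (hg : ContDiff ℝ ∞ (gau D.A x)) {s : St V Y} (hi : (gau D.A x s.1).IsInvertible) :
    fderiv ℝ (gst D.A x) s ((D.til x).Xs s) = D.Xs (gst D.A x s) := by
  have key : ∀ p : Y, gau D.A x s.1 (-(D.til x).A s.1 s.2.1 p) + fderiv ℝ (gau D.A x) s.1 s.2.1 p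
      = - D.A s.1 s.2.1 (gau D.A x s.1 p) := by
    intro p
    rw [BD.til_A, map_neg, hi.self_apply_inverse]
    abel
  rw [gst_fderiv hg]
  simp only [BD.Xs, gst]
  rw [key, key, key, key]
  rfl

lemma OmS_rel {s : St V Y} (hi : (gau D.A x s.1).IsInvertible)
    (ho : ∀ (ζ ζ' : V) (p : Y),
      OmV (D.til x).A s.1 ζ ζ' p = (gau D.A x s.1).inverse (OmV D.A s.1 ζ ζ' (gau D.A x s.1 p))) :
    (D.til x).OmS s = D.OmS (gst D.A x s) := by
  simp only [BD.OmS, gst]
  rw [BD.til_k, ho, hi.self_apply_inverse]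

lemma SS_rel (s : St V Y) : (D.til x).SS s = D.SS (gst D.A x s) := by
  simp only [BD.SS, gst]
  rw [BD.til_S]

/-! ### smoothness of the spray and of the functions on the states -/

/-- joint differentiability of the Christoffel symbols. -/
lemma contDiffAt_Gam {h : V → V →L[ℝ] V →L[ℝ] ℝ} (hh : ContDiffAt ℝ 2 h x)
    (hp : ∀ u, u ≠ 0 → 0 < h x u u) {E : Type*} [NormedAddCommGroup E] [NormedSpace ℝ E]
    {f u v : E → V} {e : E} (he : f e = x) (hf : ContDiffAt ℝ 1 f e) (hu : ContDiffAt ℝ 1 u e)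
    (hv : ContDiffAt ℝ 1 v e) :
    ContDiffAt ℝ 1 (fun e' => Gam h (f e') (u e') (v e')) e := by
  subst he
  have h1 : ContDiffAt ℝ 1 (fun e' => (h (f e')).inverse) e := by
    obtain ⟨g, hg⟩ := invertible_of_pos hp
    have h1 : ContDiffAt ℝ 1 ContinuousLinearMap.inverse (h (f e)) := by
      rw [← hg]
      exact contDiffAt_map_inverse g
    have h2 : ContDiffAt ℝ 1 (fun e' => h (f e')) e := (hh.of_le (by norm_num)).comp e hf
    exact h1.comp e h2
  have hd : ContDiffAt ℝ 1 (fun e' => fderiv ℝ h (f e')) e :=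
    (hh.fderiv_right (m := 1) (by norm_num)).comp e hf
  have hev : ∀ᶠ e' in 𝓝 e, ContDiffAt ℝ 2 h (f e') :=
    hf.continuousAt.eventually (hh.eventually (by norm_num))
  have h2 : ContDiffAt ℝ 1 (fun e' => chr h (f e') (u e') (v e')) e := by
    have h3 : ContDiffAt ℝ 1 (fun e' => (1 / 2 : ℝ) • (fderiv ℝ h (f e') (u e') (v e')
        + fderiv ℝ h (f e') (v e') (u e')
        - (((fderiv ℝ h (f e')).flip (u e')).flip (v e')))) e := by
      have h4 : ContDiffAt ℝ 1 (fun e' => (((fderiv ℝ h (f e')).flip (u e')).flip (v e'))) e := by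
        have h5 : ContDiffAt ℝ 1 (fun e' => ((fderiv ℝ h (f e')).flip)) e :=
          (ContinuousLinearMap.flipₗᵢ ℝ V V (V →L[ℝ] ℝ)).toContinuousLinearEquiv.contDiff.contDiffAt.comp e hd
        have h6 : ContDiffAt ℝ 1 (fun e' => ((fderiv ℝ h (f e')).flip (u e')).flip) e :=
          (ContinuousLinearMap.flipₗᵢ ℝ V V ℝ).toContinuousLinearEquiv.contDiff.contDiffAt.comp e
            (h5.clm_apply hu)
        exact h6.clm_apply hv
      exact (((hd.clm_apply hu).clm_apply hv).add ((hd.clm_apply hv).clm_apply hu)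
        |>.sub h4).const_smul _
    refine h3.congr_of_eventuallyEq (hev.mono fun e' he' => ?_)
    have hd' : HasFDerivAt h (fderiv ℝ h (f e')) (f e') := (he'.differentiableAt (by norm_num)).hasFDerivAt
    have c1 : ∀ w : V, fderiv ℝ (fun z' => h z' w) (f e') = (fderiv ℝ h (f e')).flip w := by
      intro w
      have := (hd'.clm_apply (hasFDerivAt_const w (f e'))).fderiv
      rw [this]
      ext a b
      simp
    have c2 : ∀ w w' : V, fderiv ℝ (fun z' => h z' w w') (f e')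
        = ((fderiv ℝ h (f e')).flip w).flip w' := by
      intro w w'
      have := ((hd'.clm_apply (hasFDerivAt_const w (f e'))).clm_apply (hasFDerivAt_const w' (f e'))).fderiv
      rw [this]
      ext a
      simp
    simp only [chr]
    rw [c1, c1, c2]
    rfl
  exact h1.clm_apply h2

lemma contDiffAt_Xs (H : D.Good x) {s : St V Y} (hs : s.1 = x) : ContDiffAt ℝ 1 D.Xs s := by
  subst hs
  have hA : ContDiffAt ℝ 1 (fun s : St V Y => D.A s.1) s :=
    (H.hA.of_le (by simp)).comp s contDiffAt_fst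
  have hh : ContDiffAt ℝ 2 D.h s.1 := H.hh.of_le (by norm_cast)
  have hp := H.hpos.self_of_nhds
  have c1 : ContDiffAt ℝ 1 (fun s : St V Y => s.1) s := contDiffAt_fst
  have c2 : ContDiffAt ℝ 1 (fun s : St V Y => s.2.1) s := by fun_prop
  have c3 : ContDiffAt ℝ 1 (fun s : St V Y => s.2.2.1) s := by fun_prop
  have g1 := contDiffAt_Gam hh hp rfl c1 c2 c2
  have g2 := contDiffAt_Gam hh hp rfl c1 c2 c3
  unfold BD.Xs
  fun_prop

lemma contDiffAt_OmS (H : D.Good x) {s : St V Y} (hs : s.1 = x) : ContDiffAt ℝ 1 D.OmS s := by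
  subst hs
  have hA : ContDiffAt ℝ 1 (fun s : St V Y => D.A s.1) s :=
    (H.hA.of_le (by simp)).comp s contDiffAt_fst
  have hk : ContDiffAt ℝ 1 (fun s : St V Y => D.k s.1) s :=
    (H.hk.of_le (by simp)).comp s contDiffAt_fst
  have hdA : ContDiffAt ℝ 1 (fun s : St V Y => fderiv ℝ D.A s.1) s :=
    (H.hA.fderiv_right (m := 1) (by norm_cast)).comp s contDiffAt_fst
  have c2 : ContDiffAt ℝ 1 (fun s : St V Y => s.2.1) s := by fun_prop
  have c3 : ContDiffAt ℝ 1 (fun s : St V Y => s.2.2.1) s := by fun_prop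
  have c4 : ContDiffAt ℝ 1 (fun s : St V Y => s.2.2.2.1) s := by fun_prop
  have c5 : ContDiffAt ℝ 1 (fun s : St V Y => s.2.2.2.2.1) s := by fun_prop
  have a1 := hA.clm_apply c2
  have a2 := hA.clm_apply c3
  have b1 := (hdA.clm_apply c2).clm_apply c3
  have b2 := (hdA.clm_apply c3).clm_apply c2
  have o := ((b1.sub b2).add (a1.clm_comp a2)).sub (a2.clm_comp a1)
  exact (hk.clm_apply c4).clm_apply (o.clm_apply c5)

lemma contDiffAt_SS (H : D.Good x) {s : St V Y} (hs : s.1 = x) : ContDiffAt ℝ 2 D.SS s := by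
  subst hs
  have hS : ContDiffAt ℝ 2 (fun s : St V Y => D.S s.1) s :=
    (H.hS.of_le (by norm_cast)).comp s contDiffAt_fst
  have c4 : ContDiffAt ℝ 2 (fun s : St V Y => s.2.2.2.1) s := by fun_prop
  have c5 : ContDiffAt ℝ 2 (fun s : St V Y => s.2.2.2.2.1) s := by fun_prop
  have c6 : ContDiffAt ℝ 2 (fun s : St V Y => s.2.2.2.2.2.1) s := by fun_prop
  have c7 : ContDiffAt ℝ 2 (fun s : St V Y => s.2.2.2.2.2.2) s := by fun_prop
  exact (((hS.clm_apply c4).clm_apply c5).clm_apply c6).clm_apply c7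

/-- naturality of the Lie derivative. -/
lemma lie_comp {E F : Type*} [NormedAddCommGroup E] [NormedSpace ℝ E] [NormedAddCommGroup F]
    [NormedSpace ℝ F] {X X' : E → E} {f f' : E → F} {φ : E → E} {s : E}
    (hf' : f' =ᶠ[𝓝 s] fun s' => f (φ s')) (hφ : DifferentiableAt ℝ φ s)
    (hf : DifferentiableAt ℝ f (φ s)) (hX : fderiv ℝ φ s (X' s) = X (φ s)) :
    lie X' f' s = lie X f (φ s) := by
  have h1 : fderiv ℝ f' s = fderiv ℝ (fun s' => f (φ s')) s := hf'.fderiv_eq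
  have h2 : fderiv ℝ (fun s' => f (φ s')) s = (fderiv ℝ f (φ s)) ∘L (fderiv ℝ φ s) :=
    (hf.hasFDerivAt.comp s hφ.hasFDerivAt).fderiv
  rw [lie, lie, h1, h2, ContinuousLinearMap.comp_apply, hX]

/-- MB-8b : the Lie derivatives along the spray are invariant; the hypotheses are MB-7a
(`gau_contDiff`, `gau_self`, `gau_inv`) and MB-8a (`til_OmV`). -/
theorem til_lie_of (hg : ContDiff ℝ ∞ (gau D.A x)) (hgs : gau D.A x x = ContinuousLinearMap.id ℝ Y)
    (hgi : ∀ᶠ x' in 𝓝 x, (gau D.A x x').IsInvertible)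
    (hgo : ∀ᶠ x' in 𝓝 x, ∀ (ζ ζ' : V) (p : Y),
      OmV (D.til x).A x' ζ ζ' p = (gau D.A x x').inverse (OmV D.A x' ζ ζ' (gau D.A x x' p)))
    (H : D.Good x) (s : St V Y) (hs : s.1 = x) :
    lie (D.til x).Xs (D.til x).OmS s = lie D.Xs D.OmS s ∧
    lie (D.til x).Xs (D.til x).SS s = lie D.Xs D.SS s ∧
    lie (D.til x).Xs (lie (D.til x).Xs (D.til x).SS) s = lie D.Xs (lie D.Xs D.SS) s := by
  have hφ : ContDiff ℝ ∞ (gst D.A x) := gst_contDiff hg
  have hφd : Differentiable ℝ (gst D.A x) := hφ.differentiable (by simp)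
  have hφs : gst D.A x s = s := by
    simp only [gst, hs, hgs]
    rw [← hs]
    rfl
  have t1 : Tendsto (fun s' : St V Y => s'.1) (𝓝 s) (𝓝 x) := by
    have := (continuous_fst (X := V) (Y := V × V × Y × Y × Y × Y)).tendsto s
    rwa [hs] at this
  have hi : ∀ᶠ s' : St V Y in 𝓝 s, (gau D.A x s'.1).IsInvertible :=
    t1.eventually hgi
  have ho : ∀ᶠ s' : St V Y in 𝓝 s, ∀ (ζ ζ' : V) (p : Y),
      OmV (D.til x).A s'.1 ζ ζ' p
        = (gau D.A x s'.1).inverse (OmV D.A s'.1 ζ ζ' (gau D.A x s'.1 p)) :=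
    t1.eventually hgo
  have hX : ∀ᶠ s' : St V Y in 𝓝 s,
      fderiv ℝ (gst D.A x) s' ((D.til x).Xs s') = D.Xs (gst D.A x s') :=
    hi.mono fun s' h => spray_rel hg h
  have hOm : (D.til x).OmS =ᶠ[𝓝 s] fun s' => D.OmS (gst D.A x s') := by
    filter_upwards [hi, ho] with s' h1 h2
    exact OmS_rel h1 h2
  have hSS : (D.til x).SS =ᶠ[𝓝 s] fun s' => D.SS (gst D.A x s') :=
    Eventually.of_forall fun s' => SS_rel s'
  have hφt : Tendsto (gst D.A x) (𝓝 s) (𝓝 s) := by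
    have := hφ.continuous.tendsto s
    rwa [hφs] at this
  have hdS : ∀ᶠ s' : St V Y in 𝓝 s, DifferentiableAt ℝ D.SS (gst D.A x s') :=
    hφt.eventually (((contDiffAt_SS H hs).eventually (by norm_num)).mono
      fun s' h => h.differentiableAt (by norm_num))
  have hl : lie (D.til x).Xs (D.til x).SS =ᶠ[𝓝 s] fun s' => lie D.Xs D.SS (gst D.A x s') := by
    filter_upwards [hX, hSS.eventually_nhds, hdS] with s' h1 h2 h3
    exact lie_comp h2 hφd.differentiableAt h3 h1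
  have hls : DifferentiableAt ℝ (lie D.Xs D.SS) (gst D.A x s) := by
    rw [hφs]
    unfold lie
    exact ((((contDiffAt_SS H hs).fderiv_right (m := 1) (by norm_num)).differentiableAt
      (by norm_num)).clm_apply ((contDiffAt_Xs H hs).differentiableAt (by norm_num)))
  refine ⟨?_, ?_, ?_⟩
  · have := lie_comp (X := D.Xs) (X' := (D.til x).Xs) hOm hφd.differentiableAt
      (by rw [hφs]; exact (contDiffAt_OmS H hs).differentiableAt (by norm_num)) hX.self_of_nhds
    rw [this, hφs]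
  · rw [hl.self_of_nhds]
    simp only [hφs]
  · have := lie_comp (X := D.Xs) (X' := (D.til x).Xs) hl hφd.differentiableAt hls hX.self_of_nhds
    rw [this, hφs]

end

end Pool.Agent.Helper6.MB
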