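import Pool.Agent.Helper6.MB.P8b
import Pool.Agent.Helper20.MB.St.Stubs2

open Filter Metric Module Set
open scoped Topology ContDiff RealInnerProductSpace Manifold

set_option maxSynthPendingDepth 3

namespace Pool.Agent.Helper6.MB
open Pool.Agent.Helper20.PC Pool.Agent.Helper20.HP Pool.Agent.Helper20.M8 Pool.Agent.Helper20.MB

section
variable {V Y : Type*} [NormedAddCommGroup V] [NormedSpace ℝ V] [FiniteDimensional ℝ V]
  [NormedAddCommGroup Y] [NormedSpace ℝ Y] [FiniteDimensional ℝ Y] {D : BD V Y} {x : V} {y : Y}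

-- MB-8b : the Lie derivatives along the spray are invariant (uses MB-7a, MB-7b, MB-8a)
theorem til_lie (H : D.Good x) (s : St V Y) (hs : s.1 = x) :
    lie (D.til x).Xs (D.til x).OmS s = lie D.Xs D.OmS s ∧
    lie (D.til x).Xs (D.til x).SS s = lie D.Xs D.SS s ∧
    lie (D.til x).Xs (lie (D.til x).Xs (D.til x).SS) s = lie D.Xs (lie D.Xs D.SS) s :=
  til_lie_of (Spec.gau_contDiff D.A x) (Spec.gau_self D.A x) (Spec.gau_inv D.A x).1
    (Spec.til_OmV H) H s hs

end

end Pool.Agent.Helper6.MB
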